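import Pool.Agent.Helper60_AEU.All
import Pool.Agent.Helper16_XQ.Ana

/-!
Squad XQ (MP_5b0138_an), module GBR: the germ of a vertex with a right angle and a side line
(helper74).
-/

set_option autoImplicit false

namespace Pool.Agent.XQ.H74

open MeasureTheory Complex Filter Topology ProbabilityTheory Pool.Agent.H16Iso Pool.Agent.H62T
open Pool.Agent.H60K Pool.Agent.AEU Pool.Agent.H38KL

/-- the main term for a right angle -/
lemma FS_right (hKTS : KtsStatement) {η1 η2 d κ : ℝ} (hs : η1 + η2 = Real.pi / 2) (hd : 0 < d)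
    (hκ : 0 < κ) : FS η1 η2 d κ = 1 / 2 * Real.exp (-(2 * d * κ)) := by
  have hπ := Real.pi_pos
  have hx : 0 < 2 * κ * d := by positivity
  have h3 := (hKTS.2.2 (2 * κ * d) 0 hx (by rw [abs_zero]; positivity)).2
  simp only [zero_mul, Real.cosh_zero, mul_one, Real.cos_zero] at h3
  unfold FS
  rw [hs]
  have h1 : ∀ τ ∈ Set.Ioi (0 : ℝ),
      (Real.sinh ((2 * (Real.pi / 2) - Real.pi) * τ) / Real.sinh (Real.pi / 2 * τ)
        * Real.cosh ((η1 - η2) * τ) * Kit 0 (2 * κ * d)
      + Real.sinh ((Real.pi - Real.pi / 2) * τ) / Real.sinh (Real.pi / 2 * τ)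
        * Kit (2 * τ) (2 * κ * d)) = Kit (2 * τ) (2 * κ * d) := by
    intro τ hτ
    have hτ' : 0 < τ := hτ
    have e1 : (2 * (Real.pi / 2) - Real.pi) * τ = 0 := by ring
    have e2 : (Real.pi - Real.pi / 2) * τ = Real.pi / 2 * τ := by ring
    have e3 : 0 < Real.sinh (Real.pi / 2 * τ) := Real.sinh_pos_iff.2 (by positivity)
    rw [e1, e2, Real.sinh_zero, zero_div, zero_mul, zero_mul, zero_add, div_self e3.ne', one_mul]
  rw [setIntegral_congr_fun measurableSet_Ioi h1]
  have h2 := integral_comp_mul_left_Ioi (fun s => Kit s (2 * κ * d)) 0 (two_pos : (0 : ℝ) < 2)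
  simp only [mul_zero] at h2
  rw [h2, h3, smul_eq_mul]
  have e4 : 2 * κ * d = 2 * d * κ := by ring
  rw [e4]
  field_simp

theorem gbr_of (hSPAN : SpanStatement) (hINV : InvStatement) (hVEX : VexStatement)
    (hKTS : KtsStatement) : GermBrStmt := by
  intro z η d hz hη hη' hd
  have hπ := Real.pi_pos
  have hs1 : Real.cos (Real.pi / 2 - η) < Real.sin (Real.pi / 2) := by
    rw [Real.cos_pi_div_two_sub, Real.sin_pi_div_two, ← Real.sin_pi_div_two]
    exact Real.sin_lt_sin_of_lt_of_le_pi_div_two (by linarith) le_rfl hη'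
  have hs2 : Real.cos η < Real.sin (Real.pi / 2) := by
    rw [Real.sin_pi_div_two, ← Real.sin_pi_div_two, ← Real.sin_pi_div_two_sub]
    exact Real.sin_lt_sin_of_lt_of_le_pi_div_two (by linarith) le_rfl (by linarith)
  obtain ⟨C, δ, hδ, h⟩ := span_small hSPAN hINV hVEX (z := z) (α := Real.pi / 2) (η := η) (d := d)
    hz (by linarith) hη hη' (by linarith) (by linarith) hd (by
      have e : 2 * (Real.pi / 2) - Real.pi = 0 := by ring
      rw [e, abs_zero, zero_add, abs_lt]
      constructor <;> linarith) hs1 hs2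
  refine ⟨C, δ, hδ, ?_⟩
  filter_upwards [h, eventually_gt_atTop 0] with κ hκ hκ0
  rw [FS_right hKTS (by ring) hd hκ0, Real.sin_pi_div_two, one_mul] at hκ
  have e1 : n1 z (Real.pi / 2) = z * exp (-(Real.pi / 2) * I) := by
    unfold n1
    congr 2
    push_cast
    ring
  rw [e1] at hκ
  exact hκ

/-- GBR -/
theorem gbr : GermBrStmt := by
  have hldm := ldm lab_all AEU.H7.ldb
  have hs : SpanStatement := span (bms lab_all H44.blv blc_all H20.ref hldm H44.hye H29.lps H69.ges
    H69.loc) fls_all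
  exact gbr_of hs H53.inv H25.vex H51.kts

end Pool.Agent.XQ.H74
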