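import Pool.Agent.Helper74_XQ.Step

/-!
Squad XQ (MP_5b0138_an), part A, module FB: the probabilities of the visits (helper74).
-/

set_option autoImplicit false

namespace Pool.Agent.XQ.H74

open MeasureTheory Complex Filter Topology ProbabilityTheory Pool.Agent.H16Iso Pool.Agent.H62T
  Pool.Agent.H16F Pool.Agent.H60K Pool.Agent.H60K.H15 Pool.Agent.H60K.H44
open scoped ENNReal NNReal

variable {u : ℂ} {w : ℝ}

theorem AA_diag (hu : ‖u‖ = 1) {t : ℝ} (ht : 0 < t) (x : ℂ) :
    AA u w t x x = Real.exp (-(w ^ 2 / t)) / (4 * Real.pi * t) := by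
  unfold AA G
  rw [nrr hu]
  congr 1
  congr 1
  simp only [sub_self, norm_zero]
  field_simp
  ring

theorem BB_diag (hu : ‖u‖ = 1) {t : ℝ} (ht : 0 < t) (x : ℂ) :
    BB u w t x x = Real.exp (-(w ^ 2 / t)) / (4 * Real.pi * t) := by
  rw [← AA_swap, AA_diag hu ht]

theorem TT_upper (hu : ‖u‖ = 1) (hw0 : 0 < w) {t : ℝ} (ht : 0 < t) {x : ℂ} (hx : 0 ≤ ip u x)
    (hx' : ip u x ≤ w) :
    TT u w t x x ≤ 94 * Real.exp (-(w ^ 2 / t)) / (4 * Real.pi * t) := by
  have hpi := Real.pi_pos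
  have h8 : 0 < t / 8 := by positivity
  set e : ℝ := Real.exp (-(w ^ 2) / (4 * (t / 8))) / (4 * Real.pi * (t / 8)) with he
  have he0 : 0 ≤ e := by positivity
  have b0 : Bd u w (t / 8) 1 e := by
    intro x y hx hx'
    have := TT_base (y := y) hu hw0 h8 hx hx'
    linarith
  have b1 := Bd_step hu hw0 h8 le_rfl he0 b0
  have b2 := Bd_step hu hw0 (by positivity) (by norm_num) (by positivity) b1
  have b3 := Bd_step hu hw0 (by positivity) (by norm_num) (by positivity) b2
  have ht' : t / 8 + t / 8 + (t / 8 + t / 8) + (t / 8 + t / 8 + (t / 8 + t / 8)) = t := by ring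
  rw [ht'] at b3
  have h1 := b3 x x hx hx'
  rw [AA_diag hu ht, BB_diag hu ht] at h1
  have h2 : e ≤ 8 * (Real.exp (-(w ^ 2 / t)) / (4 * Real.pi * t)) := by
    rw [he]
    have e1 : -(w ^ 2) / (4 * (t / 8)) = -(2 * (w ^ 2 / t)) := by
      field_simp
      ring
    have e2 : Real.exp (-(2 * (w ^ 2 / t))) ≤ Real.exp (-(w ^ 2 / t)) := by
      rw [Real.exp_le_exp]
      have : 0 ≤ w ^ 2 / t := by positivity
      linarith only [this]
    rw [e1]
    calc Real.exp (-(2 * (w ^ 2 / t))) / (4 * Real.pi * (t / 8))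
        = 8 * (Real.exp (-(2 * (w ^ 2 / t))) / (4 * Real.pi * t)) := by
          field_simp
      _ ≤ _ := by gcongr
  have e3 : 94 * Real.exp (-(w ^ 2 / t)) / (4 * Real.pi * t)
      = 94 * (Real.exp (-(w ^ 2 / t)) / (4 * Real.pi * t)) := by ring
  rw [e3]
  linarith

/-- paths which visit first the line `ip u = 0` and then the line `ip u = w` -/
theorem TT_lower (hu : ‖u‖ = 1) (hw0 : 0 < w) {t : ℝ} (ht : 0 < t) (htw : t ≤ w ^ 2 / 16) {x : ℂ}
    (hx : w / 4 ≤ ip u x) (hx' : ip u x ≤ 3 * w / 4) :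
    Real.exp (-1) * Real.exp (-(w ^ 2 / t)) / (4 * Real.pi * t) ≤ TT u w t x x := by
  have hpi := Real.pi_pos
  have h2 : 0 < t / 2 := by positivity
  have hst : √t ≤ w / 4 := by
    rw [show w / 4 = √((w / 4) ^ 2) by rw [Real.sqrt_sq (by positivity)]]
    apply Real.sqrt_le_sqrt
    linarith only [htw]
  have hst0 : 0 < √t := Real.sqrt_pos.2 ht
  have hge := TT_ge (u := u) (w := w) h2 h2 x x
  rw [add_halves] at hge
  refine le_trans ?_ hge
  -- the centre
  set c : ℂ := x + ((w - 2 * ip u x : ℝ) : ℂ) * u with hc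
  have hun := un hu
  have hc0 : rl u 0 x = c - (w : ℂ) * u := by
    rw [hc]
    unfold rl
    push_cast
    ring
  have hcw : rl u w x = c + (w : ℂ) * u := by
    rw [hc]
    unfold rl
    push_cast
    ring
  have hipu : ip u u = 1 := hun
  have hipc : ip u c = w - ip u x := by
    rw [hc]
    have : ip u (x + ((w - 2 * ip u x : ℝ) : ℂ) * u) = ip u x + (w - 2 * ip u x) * ip u u := by
      unfold ip
      simp only [Complex.add_re, Complex.add_im, Complex.re_ofReal_mul, Complex.im_ofReal_mul]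
      ring
    rw [this, hipu]
    ring
  set B : Set ℂ := Metric.ball c (√t) with hB
  have hz : ∀ z ∈ B, 0 < ip u z ∧ ip u z < w ∧ ‖z - c‖ ^ 2 ≤ t := by
    intro z hz
    rw [hB, Metric.mem_ball, dist_eq_norm] at hz
    have h3 := ip_diff hu (z - c)
    rw [ip_sub, hipc] at h3
    have h4 : ‖z - c‖ ^ 2 ≤ t := by
      calc ‖z - c‖ ^ 2 ≤ √t ^ 2 := by
            have := norm_nonneg (z - c)
            nlinarith only [hz, this]
        _ = t := Real.sq_sqrt ht.le
    have h5 : |ip u z - (w - ip u x)| < w / 4 := by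
      apply abs_lt_of_sq_lt_sq _ (by positivity)
      have := norm_nonneg (z - c)
      nlinarith only [h3, hst, hz, this]
    rw [abs_lt] at h5
    exact ⟨by linarith, by linarith, h4⟩
  have hpt : ∀ z ∈ B, Real.exp (-1) * Real.exp (-(w ^ 2 / t)) / (2 * Real.pi * t) ^ 2
      ≤ K0 u w (t / 2) x z * K1 u w (t / 2) z x := by
    intro z hzB
    obtain ⟨z1, z2, z3⟩ := hz z hzB
    rw [K0_eq hu h2 (by linarith) z1, K1_eq hu h2 z2 (by linarith)]
    have e1 : G (t / 2) (rl u w z - x) = G (t / 2) (z - rl u w x) := by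
      apply G_eq
      rw [norm_sub_rl hu]
    rw [e1, hc0, hcw]
    unfold G
    rw [div_mul_div_comm, ← Real.exp_add, ← Real.exp_add]
    have e2 : 4 * Real.pi * (t / 2) * (4 * Real.pi * (t / 2)) = (2 * Real.pi * t) ^ 2 := by ring
    rw [e2]
    refine div_le_div_of_nonneg_right ?_ (by positivity)
    rw [Real.exp_le_exp]
    have e3 : ‖c - (w : ℂ) * u - z‖ ^ 2 + ‖z - (c + (w : ℂ) * u)‖ ^ 2
        = 2 * ‖z - c‖ ^ 2 + 2 * w ^ 2 := by
      rw [nsq, nsq, nsq]
      simp only [Complex.sub_re, Complex.sub_im, Complex.add_re, Complex.add_im,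
        Complex.re_ofReal_mul, Complex.im_ofReal_mul]
      linear_combination (2 * w ^ 2) * hun
    have e4 : -(‖c - (w : ℂ) * u - z‖ ^ 2) / (4 * (t / 2)) + -(‖z - (c + (w : ℂ) * u)‖ ^ 2)
        / (4 * (t / 2)) = -((‖z - c‖ ^ 2 + w ^ 2) / t) := by
      rw [← add_div, ← neg_add, e3]
      field_simp
      ring
    rw [e4, add_div]
    have : ‖z - c‖ ^ 2 / t ≤ 1 := by
      rw [div_le_one ht]
      exact z3
    linarith only [this]
  have hint : Integrable fun z => K0 u w (t / 2) x z * K1 u w (t / 2) z x :=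
    int_mul h2 h2 (K0_meas_r _ x) (K1_meas_l _ x) (fun z => K0_nonneg h2 x z)
      (fun z => K1_nonneg h2 z x) (fun z => K0_le_G h2 x z) (fun z => K1_le_G h2 z x)
  have hvol : (volume B).toReal = Real.pi * t := by
    rw [hB, Complex.volume_ball]
    rw [ENNReal.toReal_mul, ENNReal.toReal_pow, ENNReal.toReal_ofReal hst0.le, Real.sq_sqrt ht.le]
    simp
    ring
  calc Real.exp (-1) * Real.exp (-(w ^ 2 / t)) / (4 * Real.pi * t)
      = ∫ _ in B, Real.exp (-1) * Real.exp (-(w ^ 2 / t)) / (2 * Real.pi * t) ^ 2 := by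
        rw [setIntegral_const, Measure.real, hvol, smul_eq_mul]
        field_simp
        ring
    _ ≤ ∫ z in B, K0 u w (t / 2) x z * K1 u w (t / 2) z x := by
        refine setIntegral_mono_on ?_ hint.integrableOn Metric.isOpen_ball.measurableSet hpt
        refine integrableOn_const ?_
        rw [hB, Complex.volume_ball]
        exact ENNReal.mul_ne_top (ENNReal.pow_ne_top ENNReal.ofReal_ne_top) ENNReal.coe_ne_top
    _ ≤ ∫ z, K0 u w (t / 2) x z * K1 u w (t / 2) z x := by
        refine setIntegral_le_integral hint (Eventually.of_forall fun z => ?_)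
        exact mul_nonneg (K0_nonneg h2 x z) (K1_nonneg h2 z x)

/-! ### Events -/

theorem G_zero {t : ℝ} : G t 0 = 1 / (4 * Real.pi * t) := by
  unfold G
  simp

/-- leaving the half-plane -/
theorem notMem_AE {v : Fin 3 → ℂ} {h : Fin 3 → ℝ} {t : ℝ} (ht : 0 < t) {s : Fin 3} {x : ℂ} {ω : Sp}
    (hl : h s < ip (v s) x + √t * hs ω (v s)) : ω ∉ H8.AE (H25.Hs v h s) t x := by
  intro hω
  have hst : 0 < √t := Real.sqrt_pos.2 ht
  have hip : ∀ m k, ip (v s) (x + (√t : ℂ) * loop m ω k)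
      = ip (v s) x + √t * ip (v s) (loop m ω k) := by
    intro m k
    unfold ip
    simp only [Complex.add_re, Complex.add_im, Complex.mul_re, Complex.mul_im, Complex.ofReal_re,
      Complex.ofReal_im]
    ring
  have h1 : ∀ m k : ℕ, k ≤ 2 ^ m → ip (v s) x + √t * ip (v s) (loop m ω k) < h s := by
    intro m k hk
    have := hω m k hk
    unfold H25.Hs at this
    rwa [Set.mem_ofPred_eq, hip] at this
  have h0 : 0 ≤ (h s - ip (v s) x) / √t := by
    have := h1 0 0 (by norm_num)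
    rw [loop_stmt.2.1] at this
    have e : ip (v s) 0 = 0 := by simp [ip]
    rw [e] at this
    apply div_nonneg _ hst.le
    linarith
  have h2 : hs ω (v s) ≤ (h s - ip (v s) x) / √t := by
    refine H8.hs_le_of h0 fun m k hk => ?_
    rw [le_div_iff₀ hst]
    have := h1 m k hk
    linarith
  rw [le_div_iff₀ hst] at h2
  linarith

/-- staying in the half-plane -/
theorem mem_AE {v : Fin 3 → ℂ} {h : Fin 3 → ℝ} {t : ℝ} (ht : 0 < t) {s : Fin 3} {x : ℂ} {ω : Sp}
    {R : ℝ} (hR : ∀ m k, k ≤ 2 ^ m → ‖loop m ω k‖ ≤ R)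
    (hl : ip (v s) x + √t * hs ω (v s) < h s) : ω ∈ H8.AE (H25.Hs v h s) t x := by
  have hst : 0 < √t := Real.sqrt_pos.2 ht
  intro m k hk
  unfold H25.Hs
  rw [Set.mem_ofPred_eq]
  have hip : ip (v s) (x + (√t : ℂ) * loop m ω k)
      = ip (v s) x + √t * ip (v s) (loop m ω k) := by
    unfold ip
    simp only [Complex.add_re, Complex.add_im, Complex.mul_re, Complex.mul_im, Complex.ofReal_re,
      Complex.ofReal_im]
    ring
  rw [hip]
  have h3 := mul_le_mul_of_nonneg_left (H8.ip_loop_le hR (v s) hk) hst.le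
  linarith

theorem ip_smul (hu : ‖u‖ = 1) (X : ℝ) : ip u ((X : ℂ) * u) = X := by
  have hun := un hu
  have : ip u ((X : ℂ) * u) = X * (u.re * u.re + u.im * u.im) := by
    unfold ip
    simp only [Complex.re_ofReal_mul, Complex.im_ofReal_mul]
    ring
  rw [this, hun, mul_one]

/-- both sides are left: upper bound -/
theorem prob_upper (hu : ‖u‖ = 1) (hw0 : 0 < w) {t : ℝ} (ht : 0 < t) {X : ℝ} (hX : 0 ≤ X)
    (hX' : X ≤ w) :
    PP {ω | w < X + √t * hs ω u ∧ X < √t * hs ω (-u)}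
      ≤ ENNReal.ofReal (94 * Real.exp (-(w ^ 2 / t))) := by
  have hpi := Real.pi_pos
  set x : ℂ := (X : ℂ) * u with hx
  have hipx : ip u x = X := ip_smul hu X
  have hsub : {ω | w < X + √t * hs ω u ∧ X < √t * hs ω (-u)}
      ⊆ H25.SS (vv u) (hw w) {0, 1} ∅ t x := by
    rintro ω ⟨h1, h2⟩
    refine ⟨fun s hs' => ?_, fun s hs' => absurd hs' (Finset.notMem_empty _)⟩
    rcases Finset.mem_insert.1 hs' with rfl | hs'
    · apply notMem_AE ht
      simp only [vv, hw, Matrix.cons_val_zero]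
      rw [hipx]
      exact h1
    · rw [Finset.mem_singleton.1 hs']
      apply notMem_AE ht
      simp only [vv, hw, Matrix.cons_val_one, Matrix.cons_val_zero]
      rw [ip_neg, hipx]
      linarith
  refine (measure_mono hsub).trans ?_
  rw [← ENNReal.ofReal_toReal (measure_ne_top PP (H25.SS (vv u) (hw w) {0, 1} ∅ t x))]
  apply ENNReal.ofReal_le_ofReal
  have h1 := H25.kME_diag (vv u) (hw w) {0, 1} ∅ ht x
  have h2 := TT_upper hu hw0 ht (x := x) (by rw [hipx]; exact hX) (by rw [hipx]; exact hX')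
  unfold TT at h2
  rw [h1, G_zero] at h2
  have h3 : 0 < 4 * Real.pi * t := by positivity
  rw [one_div, inv_mul_eq_div] at h2
  exact (div_le_div_iff_of_pos_right h3).1 h2

/-- both sides are left: lower bound -/
theorem prob_lower (hu : ‖u‖ = 1) (hw0 : 0 < w) {t : ℝ} (ht : 0 < t) (htw : t ≤ w ^ 2 / 16)
    {X : ℝ} (hX : w / 4 ≤ X) (hX' : X ≤ 3 * w / 4) :
    ENNReal.ofReal (Real.exp (-1) * Real.exp (-(w ^ 2 / t)))
      ≤ PP {ω | w ≤ X + √t * hs ω u ∧ X ≤ √t * hs ω (-u)} := by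
  have hpi := Real.pi_pos
  set x : ℂ := (X : ℂ) * u with hx
  have hipx : ip u x = X := ip_smul hu X
  have hsub : PP (H25.SS (vv u) (hw w) {0, 1} ∅ t x)
      ≤ PP {ω | w ≤ X + √t * hs ω u ∧ X ≤ √t * hs ω (-u)} := by
    apply measure_mono_ae
    filter_upwards [H41.ae_bdd osc_stmt] with ω hω
    obtain ⟨R, hR⟩ := hω
    rintro ⟨h1, -⟩
    constructor
    · by_contra hc
      push Not at hc
      refine h1 0 (by simp) (mem_AE ht hR ?_)
      simp only [vv, hw, Matrix.cons_val_zero]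
      rw [hipx]
      exact hc
    · by_contra hc
      push Not at hc
      refine h1 1 (by simp) (mem_AE ht hR ?_)
      simp only [vv, hw, Matrix.cons_val_one, Matrix.cons_val_zero]
      rw [ip_neg, hipx]
      linarith
  refine le_trans ?_ hsub
  rw [← ENNReal.ofReal_toReal (measure_ne_top PP (H25.SS (vv u) (hw w) {0, 1} ∅ t x))]
  apply ENNReal.ofReal_le_ofReal
  have h1 := H25.kME_diag (vv u) (hw w) {0, 1} ∅ ht x
  have h2 := TT_lower hu hw0 ht htw (x := x) (by rw [hipx]; exact hX) (by rw [hipx]; exact hX')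
  unfold TT at h2
  rw [h1, G_zero] at h2
  have h3 : 0 < 4 * Real.pi * t := by positivity
  rw [one_div, inv_mul_eq_div] at h2
  exact (div_le_div_iff_of_pos_right h3).1 h2

/-- one side -/
theorem prob_one (hu : ‖u‖ = 1) {t : ℝ} (ht : 0 < t) {q : ℝ} (hq : 0 < q) :
    PP {ω | q < √t * hs ω u} ≤ ENNReal.ofReal (Real.exp (-(q ^ 2 / t))) := by
  have hpi := Real.pi_pos
  have hip0 : ip u 0 = 0 := by simp [ip]
  have hsub : {ω | q < √t * hs ω u} ⊆ H25.SS (vv u) (hw q) {0} ∅ t 0 := by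
    intro ω h1
    refine ⟨fun s hs' => ?_, fun s hs' => absurd hs' (Finset.notMem_empty _)⟩
    rw [Finset.mem_singleton.1 hs']
    apply notMem_AE ht
    simp only [vv, hw, Matrix.cons_val_zero]
    rw [hip0, zero_add]
    exact h1
  refine (measure_mono hsub).trans ?_
  rw [← ENNReal.ofReal_toReal (measure_ne_top PP (H25.SS (vv u) (hw q) {0} ∅ t 0))]
  apply ENNReal.ofReal_le_ofReal
  have h1 := H25.kME_diag (vv u) (hw q) {0} ∅ ht 0
  have h2 : kME (vv u) (hw q) {0} ∅ t 0 0 = K1 u q t 0 0 := by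
    unfold kME K1
    have e : ({0} : Finset (Fin 3)).powerset = {∅, {0}} := by decide
    rw [e, Finset.sum_insert (by decide), Finset.sum_singleton]
    simp only [Finset.empty_union, Finset.card_empty, Finset.card_singleton]
    rw [pB_empty _ _ ht]
    ring
  rw [K1_eq hu ht (by rw [hip0]; exact hq) (by rw [hip0]; exact hq), h1, G_zero] at h2
  have h3 : 0 < 4 * Real.pi * t := by positivity
  have h4 : G t (rl u q 0 - 0) = Real.exp (-(q ^ 2 / t)) / (4 * Real.pi * t) := by
    unfold G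
    rw [nrl hu, hip0]
    congr 2
    simp only [sub_self, norm_zero]
    field_simp
    ring
  rw [h4, one_div, inv_mul_eq_div] at h2
  exact ((div_left_inj' h3.ne').1 h2).le

end Pool.Agent.XQ.H74
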