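import Pool.Agent.Helper16_XQ.Ana2
import Pool.Agent.Helper74_XQ.Prob

/-!
Squad XQ (MP_5b0138_an), part A, module FB: the width of the Brownian loop (helper74).
-/

set_option autoImplicit false

namespace Pool.Agent.XQ.H74

open MeasureTheory Complex Filter Topology ProbabilityTheory Pool.Agent.H16Iso Pool.Agent.H62T
  Pool.Agent.H16F Pool.Agent.H60K Pool.Agent.H60K.H15 Pool.Agent.H60K.H44
open scoped ENNReal NNReal

variable {u : ℂ} {w : ℝ}

theorem hs_int (v : ℂ) : Integrable (fun ω => hs ω v) PP := by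
  have := (mom osc_stmt).2.2.2 v 1
  simpa using this

theorem hs_int2 (v : ℂ) : Integrable (fun ω => hs ω v ^ 2) PP := (mom osc_stmt).2.2.2 v 2

theorem pos_meas (t w : ℝ) (u : ℂ) :
    Measurable fun ω => max (√t * (hs ω u + hs ω (-u)) - w) 0 :=
  (((H41.hs_meas u).add (H41.hs_meas (-u))).const_mul _ |>.sub_const _).max measurable_const

theorem fb_lower (hu : ‖u‖ = 1) (hw0 : 0 < w) {t : ℝ} (ht : 0 < t) (htw : t ≤ w ^ 2 / 16) :
    w / 2 * Real.exp (-1) * Real.exp (-(w ^ 2 / t))
      ≤ ∫ ω, max (√t * (hs ω u + hs ω (-u)) - w) 0 ∂PP := by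
  set S : Set (ℝ × Sp) := {p | w ≤ p.1 + √t * hs p.2 u ∧ p.1 ≤ √t * hs p.2 (-u)} with hSd
  have m1 : Measurable fun p : ℝ × Sp => √t * hs p.2 u :=
    ((H41.hs_meas u).comp measurable_snd).const_mul _
  have m2 : Measurable fun p : ℝ × Sp => √t * hs p.2 (-u) :=
    ((H41.hs_meas (-u)).comp measurable_snd).const_mul _
  have hS : MeasurableSet S :=
    (measurableSet_le measurable_const (measurable_fst.add m1)).inter
      (measurableSet_le measurable_fst m2)
  set ν : Measure ℝ := volume.restrict (Set.Icc (w / 4) (3 * w / 4)) with hν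
  have a1 := Measure.prod_apply (μ := ν) (ν := PP) hS
  have a2 := Measure.prod_apply_symm (μ := ν) (ν := PP) hS
  have hint : Integrable (fun ω => max (√t * (hs ω u + hs ω (-u)) - w) 0) PP := by
    have h1 : Integrable (fun ω => √t * (hs ω u + hs ω (-u)) - w) PP :=
      (((hs_int u).add (hs_int (-u))).const_mul _).sub (integrable_const _)
    exact h1.pos_part
  have hnn : 0 ≤ᵐ[PP] fun ω => max (√t * (hs ω u + hs ω (-u)) - w) 0 :=
    Eventually.of_forall fun ω => le_max_right _ _
  have key : ENNReal.ofReal (w / 2 * Real.exp (-1) * Real.exp (-(w ^ 2 / t)))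
      ≤ ENNReal.ofReal (∫ ω, max (√t * (hs ω u + hs ω (-u)) - w) 0 ∂PP) := by
    rw [ofReal_integral_eq_lintegral_ofReal hint hnn]
    calc ENNReal.ofReal (w / 2 * Real.exp (-1) * Real.exp (-(w ^ 2 / t)))
        = ∫⁻ _ in Set.Icc (w / 4) (3 * w / 4),
            ENNReal.ofReal (Real.exp (-1) * Real.exp (-(w ^ 2 / t))) := by
          rw [setLIntegral_const, Real.volume_Icc, ← ENNReal.ofReal_mul (by positivity)]
          congr 1
          ring
      _ ≤ ∫⁻ X, PP (Prod.mk X ⁻¹' S) ∂ν := by
          rw [hν]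
          refine setLIntegral_mono' measurableSet_Icc fun X hX => ?_
          exact prob_lower hu hw0 ht htw hX.1 hX.2
      _ = ∫⁻ ω, ν ((fun X => (X, ω)) ⁻¹' S) ∂PP := by rw [← a1, a2]
      _ ≤ ∫⁻ ω, ENNReal.ofReal (max (√t * (hs ω u + hs ω (-u)) - w) 0) ∂PP := by
          refine lintegral_mono fun ω => ?_
          calc ν ((fun X => (X, ω)) ⁻¹' S) ≤ volume ((fun X => (X, ω)) ⁻¹' S) := by
                rw [hν]
                exact Measure.restrict_apply_le _ _
            _ ≤ volume (Set.Icc (w - √t * hs ω u) (√t * hs ω (-u))) := by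
                apply measure_mono
                rintro X ⟨h1, h2⟩
                simp only at h1 h2
                exact ⟨by linarith, h2⟩
            _ = ENNReal.ofReal (√t * hs ω (-u) - (w - √t * hs ω u)) := Real.volume_Icc
            _ ≤ _ := by
                apply ENNReal.ofReal_le_ofReal
                refine le_max_of_le_left ?_
                apply le_of_eq
                ring
  have h0 : 0 ≤ ∫ ω, max (√t * (hs ω u + hs ω (-u)) - w) 0 ∂PP :=
    integral_nonneg fun ω => le_max_right _ _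
  exact (ENNReal.ofReal_le_ofReal_iff h0).1 key

/-! ### The second moment -/

theorem lint_tail {t v : ℝ} (ht : 0 < t) (hv : 0 < v) :
    ∫⁻ X in Set.Ioi v, ENNReal.ofReal (Real.exp (-(X ^ 2 / t)))
      ≤ ENNReal.ofReal (t / (2 * v) * Real.exp (-(v ^ 2 / t))) := by
  have ha : -(2 * v / t) < 0 := by
    have : 0 < 2 * v / t := by positivity
    linarith
  have i1 := integrableOn_exp_mul_Ioi ha v
  have i2 := integral_exp_mul_Ioi ha v
  calc ∫⁻ X in Set.Ioi v, ENNReal.ofReal (Real.exp (-(X ^ 2 / t)))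
      ≤ ∫⁻ X in Set.Ioi v, ENNReal.ofReal (Real.exp (v ^ 2 / t) * Real.exp (-(2 * v / t) * X)) := by
        refine setLIntegral_mono' measurableSet_Ioi fun X hX => ?_
        apply ENNReal.ofReal_le_ofReal
        rw [← Real.exp_add, Real.exp_le_exp]
        have : v ^ 2 / t + -(2 * v / t) * X - -(X ^ 2 / t) = (X - v) ^ 2 / t := by
          field_simp
          ring
        have h2 : 0 ≤ (X - v) ^ 2 / t := by positivity
        linarith
    _ = ENNReal.ofReal (∫ X in Set.Ioi v, Real.exp (v ^ 2 / t) * Real.exp (-(2 * v / t) * X)) := by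
        rw [ofReal_integral_eq_lintegral_ofReal (i1.const_mul _)
          (Eventually.of_forall fun X => by positivity)]
    _ = _ := by
        congr 1
        rw [integral_const_mul, i2]
        have e1 : Real.exp (-(v ^ 2 / t)) = Real.exp (v ^ 2 / t) * Real.exp (-(2 * v / t) * v) := by
          rw [← Real.exp_add]
          congr 1
          field_simp
          ring
        rw [e1]
        field_simp

theorem lint_tail' {t v : ℝ} (ht : 0 < t) (hv : 0 < v) :
    ∫⁻ X in Set.Iio (0 : ℝ), ENNReal.ofReal (Real.exp (-((v - X) ^ 2 / t)))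
      ≤ ENNReal.ofReal (t / (2 * v) * Real.exp (-(v ^ 2 / t))) := by
  refine le_trans (le_of_eq ?_) (lint_tail ht hv)
  have hmp : MeasurePreserving (fun X : ℝ => v - X) volume volume :=
    Measure.measurePreserving_sub_left volume v
  have e := hmp.setLIntegral_comp_preimage (s := Set.Ioi v) measurableSet_Ioi
    (f := fun X => ENNReal.ofReal (Real.exp (-(X ^ 2 / t)))) (by fun_prop)
  rw [← e]
  have : (fun X : ℝ => v - X) ⁻¹' Set.Ioi v = Set.Iio 0 := by
    ext X
    simp
  rw [this]

theorem lint_v {t w : ℝ} (ht : 0 < t) (hw0 : 0 < w) :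
    ∫⁻ v in Set.Ioi w, ENNReal.ofReal (v * Real.exp (-(v ^ 2 / t)))
      = ENNReal.ofReal (t / 2 * Real.exp (-(w ^ 2 / t))) := by
  have hd : ∀ x ∈ Set.Ici w, HasDerivAt (fun v : ℝ => -(t / 2) * Real.exp (-(v ^ 2 / t)))
      (x * Real.exp (-(x ^ 2 / t))) x := by
    intro x _
    have h0 : HasDerivAt (fun v : ℝ => v ^ 2 / t) (2 * x / t) x := by
      simpa using (hasDerivAt_pow 2 x).div_const t
    have h1 : HasDerivAt (fun v : ℝ => -(v ^ 2 / t)) (-(2 * x / t)) x := h0.neg
    have h2 := (h1.exp).const_mul (-(t / 2))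
    have e : x * Real.exp (-(x ^ 2 / t))
        = -(t / 2) * (Real.exp (-(x ^ 2 / t)) * -(2 * x / t)) := by
      field_simp
    rw [e]
    exact h2
  have hpos : ∀ x ∈ Set.Ioi w, 0 ≤ x * Real.exp (-(x ^ 2 / t)) := by
    intro x hx
    have : 0 < x := hw0.trans hx
    positivity
  have hlim : Tendsto (fun v : ℝ => -(t / 2) * Real.exp (-(v ^ 2 / t))) atTop (𝓝 0) := by
    have h1 : Tendsto (fun v : ℝ => v ^ 2 / t) atTop atTop :=
      (tendsto_pow_atTop (by norm_num)).atTop_div_const ht
    have h2 := (Real.tendsto_exp_neg_atTop_nhds_zero.comp h1).const_mul (-(t / 2))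
    simpa using h2
  have h1 := integral_Ioi_of_hasDerivAt_of_nonneg' hd hpos hlim
  have h2 := integrableOn_Ioi_deriv_of_nonneg' hd hpos hlim
  rw [← ofReal_integral_eq_lintegral_ofReal h2, h1]
  · congr 1
    ring
  · rw [Filter.EventuallyLE, ae_restrict_iff' measurableSet_Ioi]
    exact Eventually.of_forall hpos

/-- the integral of the probability over the starting point -/
theorem lint_X (hu : ‖u‖ = 1) {t : ℝ} (ht : 0 < t) {v : ℝ} (hv : 0 < v) (htv : t ≤ v ^ 2) :
    ∫⁻ X : ℝ, PP {ω | v < X + √t * hs ω u ∧ X < √t * hs ω (-u)}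
      ≤ ENNReal.ofReal (95 * (v * Real.exp (-(v ^ 2 / t)))) := by
  have hu' : ‖-u‖ = 1 := by rw [norm_neg]; exact hu
  set f : ℝ → ℝ≥0∞ := fun X => PP {ω | v < X + √t * hs ω u ∧ X < √t * hs ω (-u)} with hf
  have hcov : (Set.univ : Set ℝ) ⊆ Set.Icc 0 v ∪ (Set.Iio 0 ∪ Set.Ioi v) := by
    intro X _
    rcases lt_or_ge X 0 with h | h
    · exact Or.inr (Or.inl h)
    · rcases lt_or_ge v X with h' | h'
      · exact Or.inr (Or.inr h')
      · exact Or.inl ⟨h, h'⟩
  calc ∫⁻ X : ℝ, f X = ∫⁻ X in Set.univ, f X := by rw [Measure.restrict_univ]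
    _ ≤ ∫⁻ X in Set.Icc 0 v ∪ (Set.Iio 0 ∪ Set.Ioi v), f X := lintegral_mono_set hcov
    _ ≤ (∫⁻ X in Set.Icc 0 v, f X) + ((∫⁻ X in Set.Iio 0, f X) + ∫⁻ X in Set.Ioi v, f X) :=
        (lintegral_union_le _ _ _).trans (add_le_add le_rfl (lintegral_union_le _ _ _))
    _ ≤ ENNReal.ofReal (94 * (v * Real.exp (-(v ^ 2 / t))))
        + (ENNReal.ofReal (t / (2 * v) * Real.exp (-(v ^ 2 / t)))
          + ENNReal.ofReal (t / (2 * v) * Real.exp (-(v ^ 2 / t)))) := by
        refine add_le_add ?_ (add_le_add ?_ ?_)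
        · calc ∫⁻ X in Set.Icc 0 v, f X
              ≤ ∫⁻ _ in Set.Icc 0 v, ENNReal.ofReal (94 * Real.exp (-(v ^ 2 / t))) :=
                setLIntegral_mono' measurableSet_Icc fun X hX => prob_upper hu hv ht hX.1 hX.2
            _ = _ := by
                rw [setLIntegral_const, Real.volume_Icc, ← ENNReal.ofReal_mul (by positivity)]
                congr 1
                ring
        · refine le_trans (setLIntegral_mono' measurableSet_Iio fun X hX => ?_) (lint_tail' ht hv)
          have hX' : X < 0 := hX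
          refine le_trans (measure_mono ?_) (prob_one hu ht (q := v - X) (by linarith))
          rintro ω ⟨h1, -⟩
          show v - X < √t * hs ω u
          linarith
        · refine le_trans (setLIntegral_mono' measurableSet_Ioi fun X hX => ?_) (lint_tail ht hv)
          have hX' : v < X := hX
          refine le_trans (measure_mono ?_) (prob_one hu' ht (q := X) (by linarith))
          rintro ω ⟨-, h2⟩
          exact h2
    _ ≤ _ := by
        rw [← ENNReal.ofReal_add (by positivity) (by positivity),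
          ← ENNReal.ofReal_add (by positivity) (by positivity)]
        apply ENNReal.ofReal_le_ofReal
        have h1 : t / (2 * v) ≤ v / 2 := by
          rw [div_le_div_iff₀ (by positivity) (by norm_num)]
          nlinarith
        have h2 := Real.exp_pos (-(v ^ 2 / t))
        nlinarith

/-- a square as a double integral -/
theorem sq_lint {w Y : ℝ} :
    ENNReal.ofReal (max (Y - w) 0 ^ 2) ≤ 2 * ∫⁻ v in Set.Ioi w, ENNReal.ofReal (Y - v) := by
  rcases le_or_gt Y w with h | h
  · rw [max_eq_right (by linarith)]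
    simp
  · rw [max_eq_left (by linarith)]
    have h1 : ∫⁻ v in Set.Ioc w Y, ENNReal.ofReal (Y - v)
        = ENNReal.ofReal ((Y - w) ^ 2 / 2) := by
      rw [← ofReal_integral_eq_lintegral_ofReal]
      · congr 1
        rw [← intervalIntegral.integral_of_le h.le]
        rw [intervalIntegral.integral_sub (by simp) (by simp)]
        rw [intervalIntegral.integral_const, integral_id]
        simp only [smul_eq_mul]
        ring
      · exact (Continuous.integrableOn_Icc (by fun_prop)).mono_set Set.Ioc_subset_Icc_self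
      · rw [Filter.EventuallyLE, ae_restrict_iff' measurableSet_Ioc]
        exact Eventually.of_forall fun v hv => by
          simp only [Pi.zero_apply]
          linarith [hv.2]
    calc ENNReal.ofReal ((Y - w) ^ 2) = 2 * ENNReal.ofReal ((Y - w) ^ 2 / 2) := by
          rw [show (2 : ℝ≥0∞) = ENNReal.ofReal 2 by simp, ← ENNReal.ofReal_mul (by norm_num)]
          congr 1
          ring
      _ = 2 * ∫⁻ v in Set.Ioc w Y, ENNReal.ofReal (Y - v) := by rw [h1]
      _ ≤ _ := by
          gcongr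
          exact Set.Ioc_subset_Ioi_self

theorem fb_upper (hu : ‖u‖ = 1) (hw0 : 0 < w) {t : ℝ} (ht : 0 < t) (htw : t ≤ w ^ 2) :
    ∫ ω, (max (√t * (hs ω u + hs ω (-u)) - w) 0) ^ 2 ∂PP
      ≤ 95 * t * Real.exp (-(w ^ 2 / t)) := by
  set S : Set ((ℝ × ℝ) × Sp) :=
    {p | p.1.1 < p.1.2 + √t * hs p.2 u ∧ p.1.2 < √t * hs p.2 (-u)} with hSd
  have m1 : Measurable fun p : (ℝ × ℝ) × Sp => √t * hs p.2 u :=
    ((H41.hs_meas u).comp measurable_snd).const_mul _
  have m2 : Measurable fun p : (ℝ × ℝ) × Sp => √t * hs p.2 (-u) :=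
    ((H41.hs_meas (-u)).comp measurable_snd).const_mul _
  have hS : MeasurableSet S :=
    (measurableSet_lt (measurable_fst.comp measurable_fst)
      ((measurable_snd.comp measurable_fst).add m1)).inter
      (measurableSet_lt (measurable_snd.comp measurable_fst) m2)
  set μ2 : Measure (ℝ × ℝ) := (volume.restrict (Set.Ioi w)).prod volume with hμ2
  have a1 := Measure.prod_apply (μ := μ2) (ν := PP) hS
  have a2 := Measure.prod_apply_symm (μ := μ2) (ν := PP) hS
  have hm3 : Measurable fun p : ℝ × ℝ => PP (Prod.mk p ⁻¹' S) := measurable_measure_prodMk_left hS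
  have b1 : ∫⁻ p, PP (Prod.mk p ⁻¹' S) ∂μ2
      ≤ ENNReal.ofReal (95 * (t / 2 * Real.exp (-(w ^ 2 / t)))) := by
    rw [hμ2, lintegral_prod _ hm3.aemeasurable]
    calc ∫⁻ v in Set.Ioi w, ∫⁻ X, PP (Prod.mk (v, X) ⁻¹' S)
        ≤ ∫⁻ v in Set.Ioi w, ENNReal.ofReal (95 * (v * Real.exp (-(v ^ 2 / t)))) := by
          refine setLIntegral_mono' measurableSet_Ioi fun v hv => ?_
          have hv' : w < v := hv
          exact lint_X hu ht (hw0.trans hv') (by nlinarith)
      _ = ENNReal.ofReal 95 * ∫⁻ v in Set.Ioi w, ENNReal.ofReal (v * Real.exp (-(v ^ 2 / t))) := by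
          rw [← lintegral_const_mul _ (by fun_prop)]
          refine lintegral_congr fun v => ?_
          rw [ENNReal.ofReal_mul (by norm_num)]
      _ = _ := by
          rw [lint_v ht hw0, ← ENNReal.ofReal_mul (by norm_num)]
  have b2 : ∫⁻ ω, ENNReal.ofReal ((max (√t * (hs ω u + hs ω (-u)) - w) 0) ^ 2) ∂PP
      ≤ 2 * ∫⁻ ω, μ2 ((fun p => (p, ω)) ⁻¹' S) ∂PP := by
    rw [← lintegral_const_mul _ (measurable_measure_prodMk_right hS)]
    refine lintegral_mono fun ω => ?_
    refine sq_lint.trans ?_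
    gcongr
    have hms : MeasurableSet ((fun p : ℝ × ℝ => (p, ω)) ⁻¹' S) :=
      hS.preimage measurable_prodMk_right
    rw [hμ2, Measure.prod_apply hms]
    refine lintegral_mono fun v => ?_
    have e : Prod.mk v ⁻¹' ((fun p : ℝ × ℝ => (p, ω)) ⁻¹' S)
        = Set.Ioo (v - √t * hs ω u) (√t * hs ω (-u)) := by
      ext X
      simp only [hSd, Set.mem_preimage, Set.mem_ofPred_eq, Set.mem_Ioo]
      constructor
      · rintro ⟨h1, h2⟩
        exact ⟨by linarith, h2⟩
      · rintro ⟨h1, h2⟩
        exact ⟨by linarith, h2⟩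
    rw [e, Real.volume_Ioo]
    apply ENNReal.ofReal_le_ofReal
    apply le_of_eq
    ring
  have hnn : 0 ≤ᵐ[PP] fun ω => (max (√t * (hs ω u + hs ω (-u)) - w) 0) ^ 2 :=
    Eventually.of_forall fun ω => sq_nonneg _
  rw [integral_eq_lintegral_of_nonneg_ae hnn
    ((pos_meas t w u).pow_const 2).aestronglyMeasurable]
  refine ENNReal.toReal_le_of_le_ofReal (by positivity) ?_
  refine b2.trans ?_
  rw [← a2, a1]
  calc 2 * ∫⁻ p, PP (Prod.mk p ⁻¹' S) ∂μ2
      ≤ 2 * ENNReal.ofReal (95 * (t / 2 * Real.exp (-(w ^ 2 / t)))) := by gcongr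
    _ = _ := by
        rw [show (2 : ℝ≥0∞) = ENNReal.ofReal 2 by simp, ← ENNReal.ofReal_mul (by norm_num)]
        congr 1
        ring

/-- module FB -/
theorem fb : FbStmt := by
  intro u w hu hw0
  refine ⟨w / 2 * Real.exp (-1), 95, w ^ 2 / 16, by positivity, by norm_num, by positivity,
    fun t ht ht' => ⟨fb_lower hu hw0 ht ht'.le, fb_upper hu hw0 ht ?_⟩⟩
  have : 0 < w ^ 2 := by positivity
  linarith

end Pool.Agent.XQ.H74
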