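import Pool.Agent.Helper74_XQ.Strip

/-!
Squad XQ (MP_5b0138_an), part A, module FB: cutting a path in the middle (helper74).
-/

set_option autoImplicit false

namespace Pool.Agent.XQ.H74

open MeasureTheory Complex Filter Topology ProbabilityTheory Pool.Agent.H16Iso Pool.Agent.H62T
  Pool.Agent.H16F Pool.Agent.H60K Pool.Agent.H60K.H15 Pool.Agent.H60K.H44
open scoped ENNReal NNReal

variable {u : ℂ} {w : ℝ}

theorem G_conv2 {s t : ℝ} (hs : 0 < s) (ht : 0 < t) (x y : ℂ) :
    ∫ z : ℂ, G s (x - z) * G t (z - y) = G (s + t) (x - y) := by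
  have := AEU.H44.G_int2 hs ht x y
  exact (H38KL.G_conv_gen hs ht x y).2

theorem G_meas_r (s : ℝ) (x : ℂ) : Measurable fun z => G s (x - z) :=
  (H41.G_cont s).measurable.comp (measurable_const.sub measurable_id)

theorem G_meas_l (s : ℝ) (y : ℂ) : Measurable fun z => G s (z - y) :=
  (H41.G_cont s).measurable.comp (measurable_id.sub measurable_const)

theorem pB_meas_r (v : Fin 3 → ℂ) (h : Fin 3 → ℝ) (B : Finset (Fin 3)) (s : ℝ) (x : ℂ) :
    Measurable fun z => pB v h B s x z := (H8.pD_meas (dm_open v h B)).comp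
      (by fun_prop : Measurable fun z : ℂ => ((s, x, z) : ℝ × ℂ × ℂ))

theorem pB_meas_l (v : Fin 3 → ℂ) (h : Fin 3 → ℝ) (B : Finset (Fin 3)) (s : ℝ) (y : ℂ) :
    Measurable fun z => pB v h B s z y := (H8.pD_meas (dm_open v h B)).comp
      (by fun_prop : Measurable fun z : ℂ => ((s, z, y) : ℝ × ℂ × ℂ))

theorem K0_meas_r (s : ℝ) (x : ℂ) : Measurable fun z => K0 u w s x z :=
  (G_meas_r s x).sub (pB_meas_r _ _ _ s x)

theorem K1_meas_r (s : ℝ) (x : ℂ) : Measurable fun z => K1 u w s x z :=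
  (G_meas_r s x).sub (pB_meas_r _ _ _ s x)

theorem K0_meas_l (s : ℝ) (x : ℂ) : Measurable fun z => K0 u w s z x :=
  (G_meas_l s x).sub (pB_meas_l _ _ _ s x)

theorem K1_meas_l (s : ℝ) (x : ℂ) : Measurable fun z => K1 u w s z x :=
  (G_meas_l s x).sub (pB_meas_l _ _ _ s x)

theorem TT_meas_r {s : ℝ} (hs : 0 < s) (x : ℂ) : Measurable fun z => TT u w s x z := by
  simp only [TT_eq hs]
  exact (((G_meas_r s x).sub (pB_meas_r _ _ _ s x)).sub (pB_meas_r _ _ _ s x)).add
    (pB_meas_r _ _ _ s x)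

theorem TT_meas_l {s : ℝ} (hs : 0 < s) (x : ℂ) : Measurable fun z => TT u w s z x := by
  simp only [TT_eq hs]
  exact (((G_meas_l s x).sub (pB_meas_l _ _ _ s x)).sub (pB_meas_l _ _ _ s x)).add
    (pB_meas_l _ _ _ s x)

theorem K0_le_G {s : ℝ} (hs : 0 < s) (x y : ℂ) : K0 u w s x y ≤ G s (x - y) := by
  unfold K0
  linarith [pB_nonneg (vv u) (hw w) {1} hs x y]

theorem K1_le_G {s : ℝ} (hs : 0 < s) (x y : ℂ) : K1 u w s x y ≤ G s (x - y) := by
  unfold K1
  linarith [pB_nonneg (vv u) (hw w) {0} hs x y]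

theorem TT_le_G {s : ℝ} (hs : 0 < s) (x y : ℂ) : TT u w s x y ≤ G s (x - y) :=
  (TT_le_K0 hs x y).trans (K0_le_G hs x y)

theorem int_mul {s r : ℝ} (hs : 0 < s) (hr : 0 < r) {x y : ℂ} {f g : ℂ → ℝ} (hf : Measurable f)
    (hg : Measurable g) (hf0 : ∀ z, 0 ≤ f z) (hg0 : ∀ z, 0 ≤ g z) (hf1 : ∀ z, f z ≤ G s (x - z))
    (hg1 : ∀ z, g z ≤ G r (z - y)) : Integrable fun z => f z * g z := by
  refine (AEU.H44.G_int2 hs hr x y).mono' (hf.mul hg).aestronglyMeasurable
    (Eventually.of_forall fun z => ?_)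
  rw [Real.norm_of_nonneg (mul_nonneg (hf0 z) (hg0 z))]
  exact mul_le_mul (hf1 z) (hg1 z) (hg0 z) (H41.G_nonneg hs _)

theorem TT_int {s r : ℝ} (hs : 0 < s) (hr : 0 < r) (x y : ℂ) :
    Integrable (fun z => G s (x - z) * G r (z - y)
      - pB (vv u) (hw w) {0} s x z * pB (vv u) (hw w) {0} r z y
      - pB (vv u) (hw w) {1} s x z * pB (vv u) (hw w) {1} r z y
      + pB (vv u) (hw w) {0, 1} s x z * pB (vv u) (hw w) {0, 1} r z y) ∧
    TT u w (s + r) x y = ∫ z, (G s (x - z) * G r (z - y)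
      - pB (vv u) (hw w) {0} s x z * pB (vv u) (hw w) {0} r z y
      - pB (vv u) (hw w) {1} s x z * pB (vv u) (hw w) {1} r z y
      + pB (vv u) (hw w) {0, 1} s x z * pB (vv u) (hw w) {0, 1} r z y) := by
  have i0 := AEU.H44.G_int2 hs hr x y
  have i1 : Integrable fun z => pB (vv u) (hw w) {0} s x z * pB (vv u) (hw w) {0} r z y :=
    AEU.H44.pD_int2 (dm_open (vv u) (hw w) {0}) hs hr x y
  have i2 : Integrable fun z => pB (vv u) (hw w) {1} s x z * pB (vv u) (hw w) {1} r z y :=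
    AEU.H44.pD_int2 (dm_open (vv u) (hw w) {1}) hs hr x y
  have i3 : Integrable fun z => pB (vv u) (hw w) {0, 1} s x z * pB (vv u) (hw w) {0, 1} r z y :=
    AEU.H44.pD_int2 (dm_open (vv u) (hw w) {0, 1}) hs hr x y
  refine ⟨((i0.sub i1).sub i2).add i3, ?_⟩
  have e0 : ∫ z, (G s (x - z) * G r (z - y)
      - pB (vv u) (hw w) {0} s x z * pB (vv u) (hw w) {0} r z y
      - pB (vv u) (hw w) {1} s x z * pB (vv u) (hw w) {1} r z y
      + pB (vv u) (hw w) {0, 1} s x z * pB (vv u) (hw w) {0, 1} r z y)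
      = (∫ z, (G s (x - z) * G r (z - y)
      - pB (vv u) (hw w) {0} s x z * pB (vv u) (hw w) {0} r z y
      - pB (vv u) (hw w) {1} s x z * pB (vv u) (hw w) {1} r z y))
      + ∫ z, pB (vv u) (hw w) {0, 1} s x z * pB (vv u) (hw w) {0, 1} r z y :=
    integral_add ((i0.sub i1).sub i2) i3
  have e1 : ∫ z, (G s (x - z) * G r (z - y)
      - pB (vv u) (hw w) {0} s x z * pB (vv u) (hw w) {0} r z y
      - pB (vv u) (hw w) {1} s x z * pB (vv u) (hw w) {1} r z y)
      = (∫ z, (G s (x - z) * G r (z - y)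
      - pB (vv u) (hw w) {0} s x z * pB (vv u) (hw w) {0} r z y))
      - ∫ z, pB (vv u) (hw w) {1} s x z * pB (vv u) (hw w) {1} r z y :=
    integral_sub (i0.sub i1) i2
  have e2 : (∫ z, (G s (x - z) * G r (z - y)
      - pB (vv u) (hw w) {0} s x z * pB (vv u) (hw w) {0} r z y))
      = (∫ z, G s (x - z) * G r (z - y))
      - ∫ z, pB (vv u) (hw w) {0} s x z * pB (vv u) (hw w) {0} r z y := integral_sub i0 i1
  rw [e0, e1, e2, G_conv2 hs hr, TT_eq (by positivity)]
  have d : ∀ B : Finset (Fin 3), pB (vv u) (hw w) B (s + r) x y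
      = ∫ z, pB (vv u) (hw w) B s x z * pB (vv u) (hw w) B r z y := fun B =>
    AEU.H44.pD_add (dm_open (vv u) (hw w) B) hs hr x y
  rw [d {0}, d {1}, d {0, 1}]

theorem quad_facts {s : ℝ} (hs : 0 < s) (x z : ℂ) :
    0 ≤ pB (vv u) (hw w) {0, 1} s x z ∧
    0 ≤ pB (vv u) (hw w) {0} s x z - pB (vv u) (hw w) {0, 1} s x z ∧
    0 ≤ pB (vv u) (hw w) {1} s x z - pB (vv u) (hw w) {0, 1} s x z ∧
    0 ≤ TT u w s x z := by
  refine ⟨pB_nonneg _ _ _ hs _ _, ?_, ?_, TT_nonneg hs _ _⟩
  · linarith [pB_anti (vv u) (hw w) (B := {0}) (B' := {0, 1}) (by decide) hs x z]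
  · linarith [pB_anti (vv u) (hw w) (B := {1}) (B' := {0, 1}) (by decide) hs x z]

/-- cutting in two pieces, upper bound -/
theorem TT_split {s r : ℝ} (hs : 0 < s) (hr : 0 < r) (x y : ℂ) :
    TT u w (s + r) x y ≤ (∫ z, TT u w s x z * G r (z - y)) + (∫ z, G s (x - z) * TT u w r z y)
      + (∫ z, K0 u w s x z * K1 u w r z y) + ∫ z, K1 u w s x z * K0 u w r z y := by
  have j1 : Integrable fun z => TT u w s x z * G r (z - y) :=
    int_mul hs hr (TT_meas_r hs x) (G_meas_l r y) (fun z => TT_nonneg hs x z)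
      (fun z => H41.G_nonneg hr _) (fun z => TT_le_G hs x z) (fun z => le_rfl)
  have j2 : Integrable fun z => G s (x - z) * TT u w r z y :=
    int_mul hs hr (G_meas_r s x) (TT_meas_l hr y) (fun z => H41.G_nonneg hs _)
      (fun z => TT_nonneg hr z y) (fun z => le_rfl) (fun z => TT_le_G hr z y)
  have j3 : Integrable fun z => K0 u w s x z * K1 u w r z y :=
    int_mul hs hr (K0_meas_r s x) (K1_meas_l r y) (fun z => K0_nonneg hs x z)
      (fun z => K1_nonneg hr z y) (fun z => K0_le_G hs x z) (fun z => K1_le_G hr z y)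
  have j4 : Integrable fun z => K1 u w s x z * K0 u w r z y :=
    int_mul hs hr (K1_meas_r s x) (K0_meas_l r y) (fun z => K1_nonneg hs x z)
      (fun z => K0_nonneg hr z y) (fun z => K1_le_G hs x z) (fun z => K0_le_G hr z y)
  obtain ⟨i, e⟩ := TT_int (u := u) (w := w) hs hr x y
  have f1 : ∫ z, (TT u w s x z * G r (z - y) + G s (x - z) * TT u w r z y)
      = (∫ z, TT u w s x z * G r (z - y)) + ∫ z, G s (x - z) * TT u w r z y :=
    integral_add j1 j2
  have f2 : ∫ z, (TT u w s x z * G r (z - y) + G s (x - z) * TT u w r z y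
      + K0 u w s x z * K1 u w r z y)
      = (∫ z, (TT u w s x z * G r (z - y) + G s (x - z) * TT u w r z y))
        + ∫ z, K0 u w s x z * K1 u w r z y := integral_add (j1.add j2) j3
  have f3 : ∫ z, (TT u w s x z * G r (z - y) + G s (x - z) * TT u w r z y
      + K0 u w s x z * K1 u w r z y + K1 u w s x z * K0 u w r z y)
      = (∫ z, (TT u w s x z * G r (z - y) + G s (x - z) * TT u w r z y
        + K0 u w s x z * K1 u w r z y))
        + ∫ z, K1 u w s x z * K0 u w r z y := integral_add ((j1.add j2).add j3) j4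
  rw [e, ← f1, ← f2, ← f3]
  refine integral_mono i (((j1.add j2).add j3).add j4) fun z => ?_
  obtain ⟨a1, a2, a3, a4⟩ := quad_facts (u := u) (w := w) hs x z
  obtain ⟨b1, b2, b3, b4⟩ := quad_facts (u := u) (w := w) hr z y
  have e1 := TT_eq (u := u) (w := w) hs x z
  have e2 := TT_eq (u := u) (w := w) hr z y
  simp only [K0, K1]
  rw [e1] at a4
  rw [e2] at b4
  rw [e1, e2]
  linarith only [mul_nonneg a2 b4, mul_nonneg a3 b4, mul_nonneg a4 b4, mul_nonneg a4 b2,
    mul_nonneg a4 b3]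

/-- cutting in two pieces, lower bound -/
theorem TT_ge {s r : ℝ} (hs : 0 < s) (hr : 0 < r) (x y : ℂ) :
    ∫ z, K0 u w s x z * K1 u w r z y ≤ TT u w (s + r) x y := by
  have j3 : Integrable fun z => K0 u w s x z * K1 u w r z y :=
    int_mul hs hr (K0_meas_r s x) (K1_meas_l r y) (fun z => K0_nonneg hs x z)
      (fun z => K1_nonneg hr z y) (fun z => K0_le_G hs x z) (fun z => K1_le_G hr z y)
  obtain ⟨i, e⟩ := TT_int (u := u) (w := w) hs hr x y
  rw [e]
  refine integral_mono j3 i fun z => ?_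
  obtain ⟨a1, a2, a3, a4⟩ := quad_facts (u := u) (w := w) hs x z
  obtain ⟨b1, b2, b3, b4⟩ := quad_facts (u := u) (w := w) hr z y
  have e1 := TT_eq (u := u) (w := w) hs x z
  have e2 := TT_eq (u := u) (w := w) hr z y
  simp only [K0, K1]
  rw [e1] at a4
  rw [e2] at b4
  linarith only [mul_nonneg a4 b1, mul_nonneg a4 b2, mul_nonneg a1 b4, mul_nonneg a3 b4,
    mul_nonneg a3 b2]

/-! ### The step -/

theorem G_sw (t : ℝ) (x y : ℂ) : G t (x - y) = G t (y - x) := H41.G_sub_comm t x y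

theorem AA_swap (t : ℝ) (x y : ℂ) : AA u w t y x = BB u w t x y := by
  unfold AA BB
  rw [G_sw]

theorem BB_swap (t : ℝ) (x y : ℂ) : BB u w t y x = AA u w t x y := by
  unfold AA BB
  rw [G_sw]

theorem AA_conv (hu : ‖u‖ = 1) {s r : ℝ} (hs : 0 < s) (hr : 0 < r) (x y : ℂ) :
    Integrable (fun z => AA u w s x z * G r (z - y)) ∧
      ∫ z, AA u w s x z * G r (z - y) = AA u w (s + r) x y := by
  have e : (fun z => AA u w s x z * G r (z - y))
      = fun z => G s (rl u w (rl u 0 x) - z) * G r (z - y) := by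
    funext z
    unfold AA
    congr 1
    apply G_eq
    rw [norm_sub_rl hu]
  rw [e]
  refine ⟨AEU.H44.G_int2 hs hr _ _, ?_⟩
  rw [G_conv2 hs hr]
  unfold AA
  apply G_eq
  rw [norm_sub_rl hu]

theorem BB_conv (hu : ‖u‖ = 1) {s r : ℝ} (hs : 0 < s) (hr : 0 < r) (x y : ℂ) :
    Integrable (fun z => BB u w s x z * G r (z - y)) ∧
      ∫ z, BB u w s x z * G r (z - y) = BB u w (s + r) x y := by
  have e : (fun z => BB u w s x z * G r (z - y))
      = fun z => G s (rl u 0 (rl u w x) - z) * G r (z - y) := by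
    funext z
    unfold BB
    congr 1
    apply G_eq
    rw [norm_sub_rl hu]
  rw [e]
  refine ⟨AEU.H44.G_int2 hs hr _ _, ?_⟩
  rw [G_conv2 hs hr]
  unfold BB
  apply G_eq
  rw [norm_sub_rl hu]

theorem G_int_l {r : ℝ} (hr : 0 < r) (y : ℂ) :
    Integrable (fun z => G r (z - y)) ∧ ∫ z, G r (z - y) = 1 := by
  have e : (fun z => G r (z - y)) = fun z => G r (y - z) := by
    funext z
    exact G_sw r z y
  rw [e]
  exact ⟨H38KL.G_intg hr y, H38KL.G_int_one hr y⟩

/-- hypothesis of the induction -/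
def Bd (u : ℂ) (w s c e : ℝ) : Prop := ∀ x y : ℂ, 0 ≤ ip u x → ip u x ≤ w →
  TT u w s x y ≤ e + c * (AA u w s x y + BB u w s x y)

theorem AB_nonneg {s : ℝ} (hs : 0 < s) (x y : ℂ) : 0 ≤ AA u w s x y + BB u w s x y :=
  add_nonneg (H41.G_nonneg hs _) (H41.G_nonneg hs _)

theorem Bd_step (hu : ‖u‖ = 1) (hw0 : 0 < w) {s c e : ℝ} (hs : 0 < s) (hc : 1 ≤ c) (he : 0 ≤ e)
    (h : Bd u w s c e) : Bd u w (s + s) (2 * c + 1) (2 * e) := by
  have hss : 0 < s + s := by positivity
  -- one-sided estimate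
  have one : ∀ x y : ℂ, 0 ≤ ip u x → ip u x ≤ w →
      ∫ z, TT u w s x z * G s (z - y) ≤ e + c * (AA u w (s + s) x y + BB u w (s + s) x y) := by
    intro x y hx hx'
    obtain ⟨a1, a2⟩ := AA_conv (w := w) hu hs hs x y
    obtain ⟨b1, b2⟩ := BB_conv (w := w) hu hs hs x y
    obtain ⟨g1, g2⟩ := G_int_l hs y
    have j1 : Integrable fun z => TT u w s x z * G s (z - y) :=
      int_mul hs hs (TT_meas_r hs x) (G_meas_l s y) (fun z => TT_nonneg hs x z)
        (fun z => H41.G_nonneg hs _) (fun z => TT_le_G hs x z) (fun z => le_rfl)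
    calc ∫ z, TT u w s x z * G s (z - y)
        ≤ ∫ z, (e * G s (z - y) + c * (AA u w s x z * G s (z - y) + BB u w s x z * G s (z - y))) := by
          refine integral_mono j1 ((g1.const_mul e).add ((a1.add b1).const_mul c)) fun z => ?_
          have h1 := h x z hx hx'
          have h2 := H41.G_nonneg hs (z - y)
          have h3 := mul_le_mul_of_nonneg_right h1 h2
          calc TT u w s x z * G s (z - y)
              ≤ (e + c * (AA u w s x z + BB u w s x z)) * G s (z - y) := h3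
            _ = _ := by ring
      _ = e * (∫ z, G s (z - y)) + c * ((∫ z, AA u w s x z * G s (z - y))
            + ∫ z, BB u w s x z * G s (z - y)) := by
          have q1 : ∫ z, (e * G s (z - y)
              + c * (AA u w s x z * G s (z - y) + BB u w s x z * G s (z - y)))
              = (∫ z, e * G s (z - y))
                + ∫ z, c * (AA u w s x z * G s (z - y) + BB u w s x z * G s (z - y)) :=
            integral_add (g1.const_mul e) ((a1.add b1).const_mul c)
          have q2 : ∫ z, (AA u w s x z * G s (z - y) + BB u w s x z * G s (z - y))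
              = (∫ z, AA u w s x z * G s (z - y)) + ∫ z, BB u w s x z * G s (z - y) :=
            integral_add a1 b1
          rw [q1, integral_const_mul, integral_const_mul, q2]
      _ = _ := by rw [g2, a2, b2, mul_one]
  intro x y hx hx'
  have hAB := AB_nonneg (u := u) (w := w) hss x y
  rcases le_or_gt (ip u y) 0 with hy | hy
  · have := TT_out hu hw0 hss hx hx' (Or.inl hy)
    nlinarith only [he, hAB, this, hc]
  rcases le_or_gt w (ip u y) with hy' | hy'
  · have := TT_out hu hw0 hss hx hx' (Or.inr hy')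
    nlinarith
  have h1 := TT_split (u := u) (w := w) hs hs x y
  have h2 := one x y hx hx'
  have h3 : ∫ z, G s (x - z) * TT u w s z y
      ≤ e + c * (AA u w (s + s) x y + BB u w (s + s) x y) := by
    have h4 := one y x hy.le hy'.le
    rw [AA_swap (s + s) x y, BB_swap (s + s) x y] at h4
    have e5 : (fun z => G s (x - z) * TT u w s z y) = fun z => TT u w s y z * G s (z - x) := by
      funext z
      rw [TT_symm hs z y, G_sw s x z, mul_comm]
    rw [e5]
    linarith
  have h5 : ∫ z, K0 u w s x z * K1 u w s z y ≤ AA u w (s + s) x y := by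
    unfold AA
    rw [← G_conv2 hs hs]
    refine integral_mono (int_mul hs hs (K0_meas_r s x) (K1_meas_l s y)
      (fun z => K0_nonneg hs x z) (fun z => K1_nonneg hs z y) (fun z => K0_le_G hs x z)
      (fun z => K1_le_G hs z y)) (AEU.H44.G_int2 hs hs _ _) fun z => ?_
    refine mul_le_mul (K0_le hu hs hx z) ?_ (K1_nonneg hs z y) (H41.G_nonneg hs _)
    rw [K1_symm hs z y]
    refine (K1_le hu hs hy'.le z).trans ?_
    rw [G_sw]
  have h6 : ∫ z, K1 u w s x z * K0 u w s z y ≤ BB u w (s + s) x y := by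
    unfold BB
    rw [← G_conv2 hs hs]
    refine integral_mono (int_mul hs hs (K1_meas_r s x) (K0_meas_l s y)
      (fun z => K1_nonneg hs x z) (fun z => K0_nonneg hs z y) (fun z => K1_le_G hs x z)
      (fun z => K0_le_G hs z y)) (AEU.H44.G_int2 hs hs _ _) fun z => ?_
    refine mul_le_mul (K1_le hu hs hx' z) ?_ (K0_nonneg hs z y) (H41.G_nonneg hs _)
    rw [K0_symm hs z y]
    refine (K0_le hu hs hy.le z).trans ?_
    rw [G_sw]
  linarith

end Pool.Agent.XQ.H74
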