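import Pool.Agent.Helper44_BLK.Blv
import Pool.Agent.Helper25_AEU3.Vex
import Pool.Agent.Helper15_AEU3.Hpk
import Pool.Agent.Helper38_KL.HKa

/-!
Squad XQ (MP_5b0138_an), part A, module FB: kernels of the paths which visit both sides of a strip
(helper74).
-/

set_option autoImplicit false

namespace Pool.Agent.XQ.H74

open MeasureTheory Complex Filter Topology ProbabilityTheory Pool.Agent.H16Iso Pool.Agent.H62T
  Pool.Agent.H16F Pool.Agent.H60K Pool.Agent.H60K.H15 Pool.Agent.H60K.H44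
open scoped ENNReal NNReal

/-- normals: line `0` is `ip u = w`, line `1` is `ip u = 0` -/
noncomputable def vv (u : ℂ) : Fin 3 → ℂ := ![u, -u, u]

/-- support numbers -/
noncomputable def hw (w : ℝ) : Fin 3 → ℝ := ![w, 0, w]

/-- paths which visit the line `ip u = 0` -/
noncomputable def K0 (u : ℂ) (w t : ℝ) (x y : ℂ) : ℝ := G t (x - y) - pB (vv u) (hw w) {1} t x y

/-- paths which visit the line `ip u = w` -/
noncomputable def K1 (u : ℂ) (w t : ℝ) (x y : ℂ) : ℝ := G t (x - y) - pB (vv u) (hw w) {0} t x y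

/-- paths which visit both lines -/
noncomputable def TT (u : ℂ) (w t : ℝ) (x y : ℂ) : ℝ := kME (vv u) (hw w) {0, 1} ∅ t x y

variable {u : ℂ} {w : ℝ}

theorem pB_empty (v : Fin 3 → ℂ) (h : Fin 3 → ℝ) {t : ℝ} (ht : 0 < t) (x y : ℂ) :
    pB v h ∅ t x y = G t (x - y) := by
  unfold pB
  have : Dm v h ∅ = Set.univ := by
    ext x
    simp [Dm]
  rw [this]
  exact uni t x y ht

theorem pB_anti (v : Fin 3 → ℂ) (h : Fin 3 → ℝ) {B B' : Finset (Fin 3)} (hB : B ⊆ B') {t : ℝ}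
    (ht : 0 < t) (x y : ℂ) : pB v h B' t x y ≤ pB v h B t x y := by
  rw [pB_eq, pB_eq]
  refine Finset.sum_le_sum_of_subset_of_nonneg
    (Finset.powerset_mono.2 (Finset.compl_subset_compl.2 hB)) ?_
  intro A _ _
  exact kA_nonneg v h ht x y A

theorem pB_nonneg (v : Fin 3 → ℂ) (h : Fin 3 → ℝ) (B : Finset (Fin 3)) {t : ℝ}
    (ht : 0 < t) (x y : ℂ) : 0 ≤ pB v h B t x y := by
  rw [pB_eq]
  exact Finset.sum_nonneg fun A _ => kA_nonneg v h ht x y A

theorem TT_nonneg {t : ℝ} (ht : 0 < t) (x y : ℂ) : 0 ≤ TT u w t x y := by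
  unfold TT
  rw [kME_eq]
  exact Finset.sum_nonneg fun A _ => kA_nonneg _ _ ht x y A

theorem TT_eq {t : ℝ} (ht : 0 < t) (x y : ℂ) :
    TT u w t x y = G t (x - y) - pB (vv u) (hw w) {0} t x y - pB (vv u) (hw w) {1} t x y
      + pB (vv u) (hw w) {0, 1} t x y := by
  unfold TT kME
  have e : ({0, 1} : Finset (Fin 3)).powerset = {∅, {0}, {1}, {0, 1}} := by decide
  rw [e, Finset.sum_insert (by decide), Finset.sum_insert (by decide),
    Finset.sum_insert (by decide), Finset.sum_singleton]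
  simp only [Finset.empty_union, Finset.card_empty, Finset.card_singleton]
  have e2 : ({0, 1} : Finset (Fin 3)).card = 2 := by decide
  rw [e2, pB_empty _ _ ht]
  ring

theorem TT_le_K0 {t : ℝ} (ht : 0 < t) (x y : ℂ) : TT u w t x y ≤ K0 u w t x y := by
  rw [TT_eq ht]
  unfold K0
  have := pB_anti (vv u) (hw w) (B := {0}) (B' := {0, 1}) (by decide) ht x y
  linarith

theorem TT_le_K1 {t : ℝ} (ht : 0 < t) (x y : ℂ) : TT u w t x y ≤ K1 u w t x y := by
  rw [TT_eq ht]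
  unfold K1
  have := pB_anti (vv u) (hw w) (B := {1}) (B' := {0, 1}) (by decide) ht x y
  linarith

theorem pB_symm (v : Fin 3 → ℂ) (h : Fin 3 → ℝ) (B : Finset (Fin 3)) {t : ℝ} (ht : 0 < t)
    (x y : ℂ) : pB v h B t x y = pB v h B t y x := by
  unfold pB
  exact ((H8.pdk _ (dm_open v h B)).2 t ht).2.2.1 x y

theorem TT_symm {t : ℝ} (ht : 0 < t) (x y : ℂ) : TT u w t x y = TT u w t y x := by
  rw [TT_eq ht, TT_eq ht, pB_symm _ _ _ ht x y, pB_symm _ _ {1} ht x y, pB_symm _ _ {0, 1} ht x y,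
    H41.G_sub_comm]

theorem K0_symm {t : ℝ} (ht : 0 < t) (x y : ℂ) : K0 u w t x y = K0 u w t y x := by
  unfold K0
  rw [pB_symm _ _ _ ht x y, H41.G_sub_comm]

theorem K1_symm {t : ℝ} (ht : 0 < t) (x y : ℂ) : K1 u w t x y = K1 u w t y x := by
  unfold K1
  rw [pB_symm _ _ _ ht x y, H41.G_sub_comm]

theorem K0_nonneg {t : ℝ} (ht : 0 < t) (x y : ℂ) : 0 ≤ K0 u w t x y :=
  (TT_nonneg ht x y).trans (TT_le_K0 ht x y)

theorem K1_nonneg {t : ℝ} (ht : 0 < t) (x y : ℂ) : 0 ≤ K1 u w t x y :=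
  (TT_nonneg ht x y).trans (TT_le_K1 ht x y)

/-! ### Comparison with images -/

theorem G_le {t : ℝ} (ht : 0 < t) {a b : ℂ} (h : ‖b‖ ^ 2 ≤ ‖a‖ ^ 2) : G t a ≤ G t b := by
  unfold G
  have := Real.pi_pos
  refine div_le_div_of_nonneg_right ?_ (by positivity)
  rw [Real.exp_le_exp]
  refine div_le_div_of_nonneg_right ?_ (by positivity)
  linarith

theorem G_eq {t : ℝ} {a b : ℂ} (h : ‖a‖ ^ 2 = ‖b‖ ^ 2) : G t a = G t b := by
  unfold G
  rw [h]

theorem ip_neg (z : ℂ) : ip (-u) z = -ip u z := by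
  unfold ip
  simp
  ring

theorem rl_neg (z : ℂ) : z - ((2 * (ip (-u) z - 0) : ℝ) : ℂ) * (-u) = rl u 0 z := by
  unfold rl
  rw [ip_neg]
  push_cast
  ring

/-- inside: paths which visit the line `ip u = 0` -/
theorem K0_eq (hu : ‖u‖ = 1) {t : ℝ} (ht : 0 < t) {x y : ℂ} (hx : 0 < ip u x) (hy : 0 < ip u y) :
    K0 u w t x y = G t (rl u 0 x - y) := by
  unfold K0 pB
  have e : Dm (vv u) (hw w) {1} = {z | ip (-u) z < 0} := by
    ext z
    simp [Dm, vv, hw]
  rw [e, hpk (-u) 0 t x y (by rw [norm_neg]; exact hu) ht (by rw [ip_neg]; linarith)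
    (by rw [ip_neg]; linarith), rl_neg]
  rw [sub_sub_cancel]
  apply G_eq
  rw [norm_sub_rl hu]

/-- outside -/
theorem K0_out {t : ℝ} (ht : 0 < t) {x y : ℂ} (h : ip u x ≤ 0 ∨ ip u y ≤ 0) :
    K0 u w t x y = G t (x - y) := by
  unfold K0 pB
  rw [((H8.pdk _ (dm_open (vv u) (hw w) {1})).2 t ht).2.1 x y, sub_zero]
  rcases h with h | h
  · left
    intro hc
    have := hc 1 (by simp)
    simp only [vv, hw, Matrix.cons_val_one, Matrix.cons_val_zero] at this
    rw [ip_neg] at this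
    linarith
  · right
    intro hc
    have := hc 1 (by simp)
    simp only [vv, hw, Matrix.cons_val_one, Matrix.cons_val_zero] at this
    rw [ip_neg] at this
    linarith

/-- inside: paths which visit the line `ip u = w` -/
theorem K1_eq (hu : ‖u‖ = 1) {t : ℝ} (ht : 0 < t) {x y : ℂ} (hx : ip u x < w) (hy : ip u y < w) :
    K1 u w t x y = G t (rl u w x - y) := by
  unfold K1 pB
  have e : Dm (vv u) (hw w) {0} = {z | ip u z < w} := by
    ext z
    simp [Dm, vv, hw]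
  rw [e, hpk u w t x y hu ht hx hy, sub_sub_cancel]
  apply G_eq
  rw [← norm_sub_rl hu]
  rfl

/-- outside -/
theorem K1_out {t : ℝ} (ht : 0 < t) {x y : ℂ} (h : w ≤ ip u x ∨ w ≤ ip u y) :
    K1 u w t x y = G t (x - y) := by
  unfold K1 pB
  rw [((H8.pdk _ (dm_open (vv u) (hw w) {0})).2 t ht).2.1 x y, sub_zero]
  rcases h with h | h
  · left
    intro hc
    have := hc 0 (by simp)
    simp only [vv, hw, Matrix.cons_val_zero] at this
    linarith
  · right
    intro hc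
    have := hc 0 (by simp)
    simp only [vv, hw, Matrix.cons_val_zero] at this
    linarith

theorem nrl (hu : ‖u‖ = 1) (b : ℝ) (x y : ℂ) :
    ‖rl u b x - y‖ ^ 2 = ‖x - y‖ ^ 2 + 4 * (b - ip u x) * (b - ip u y) := by
  rw [← norm_sub_rl hu, norm_sub_rl_sq hu]

theorem K0_le (hu : ‖u‖ = 1) {t : ℝ} (ht : 0 < t) {x : ℂ} (hx : 0 ≤ ip u x) (y : ℂ) :
    K0 u w t x y ≤ G t (rl u 0 x - y) := by
  rcases lt_or_ge 0 (ip u y) with hy | hy
  · rcases hx.lt_or_eq with hx | hx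
    · exact (K0_eq hu ht hx hy).le
    · rw [K0_out ht (Or.inl hx.symm.le)]
      apply G_le ht
      rw [nrl hu]
      rw [← hx]
      linarith
  · rw [K0_out ht (Or.inr hy)]
    apply G_le ht
    rw [nrl hu]
    nlinarith

theorem K1_le (hu : ‖u‖ = 1) {t : ℝ} (ht : 0 < t) {x : ℂ} (hx : ip u x ≤ w) (y : ℂ) :
    K1 u w t x y ≤ G t (rl u w x - y) := by
  rcases lt_or_ge (ip u y) w with hy | hy
  · rcases hx.lt_or_eq with hx | hx
    · exact (K1_eq hu ht hx hy).le
    · rw [K1_out ht (Or.inl hx.symm.le)]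
      apply G_le ht
      rw [nrl hu]
      rw [hx]
      linarith
  · rw [K1_out ht (Or.inr hy)]
    apply G_le ht
    rw [nrl hu]
    nlinarith

/-- first image of second order -/
noncomputable def AA (u : ℂ) (w t : ℝ) (x y : ℂ) : ℝ := G t (rl u 0 x - rl u w y)

/-- second image of second order -/
noncomputable def BB (u : ℂ) (w t : ℝ) (x y : ℂ) : ℝ := G t (rl u w x - rl u 0 y)

theorem nrr (hu : ‖u‖ = 1) (a b : ℝ) (x y : ℂ) :
    ‖rl u a x - rl u b y‖ ^ 2
      = ‖x - y‖ ^ 2 + 4 * (b - a) ^ 2 + 4 * (b - a) * (ip u x - ip u y) := by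
  rw [nrl hu, norm_sub_rl_sq hu, ip_rl hu]
  ring

theorem TT_out (hu : ‖u‖ = 1) (hw0 : 0 < w) {t : ℝ} (ht : 0 < t) {x z : ℂ} (hx : 0 ≤ ip u x)
    (hx' : ip u x ≤ w) (hz : ip u z ≤ 0 ∨ w ≤ ip u z) :
    TT u w t x z ≤ AA u w t x z + BB u w t x z := by
  have hA : 0 ≤ AA u w t x z := H41.G_nonneg ht _
  have hB : 0 ≤ BB u w t x z := H41.G_nonneg ht _
  rcases hz with hz | hz
  · have h1 := (TT_le_K1 ht x z).trans (K1_le (w := w) hu ht hx' z)
    have h2 : G t (rl u w x - z) ≤ BB u w t x z := by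
      apply G_le ht
      rw [nrr hu, nrl hu]
      nlinarith
    linarith
  · have h1 := (TT_le_K0 (w := w) ht x z).trans (K0_le (w := w) hu ht hx z)
    have h2 : G t (rl u 0 x - z) ≤ AA u w t x z := by
      apply G_le ht
      rw [nrr hu, nrl hu]
      nlinarith
    linarith

theorem ip_diff (hu : ‖u‖ = 1) (z : ℂ) : ip u z ^ 2 ≤ ‖z‖ ^ 2 := by
  have h1 := H41.ip_le u z
  have h2 := H41.ip_le (-u) z
  rw [ip_neg, norm_neg] at h2
  rw [hu, one_mul] at h1 h2
  have := norm_nonneg z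
  nlinarith

theorem ip_sub (a b : ℂ) : ip u (a - b) = ip u a - ip u b := by
  unfold ip
  simp
  ring

/-- two visits in a short time are unlikely -/
theorem TT_base (hu : ‖u‖ = 1) (hw0 : 0 < w) {t : ℝ} (ht : 0 < t) {x y : ℂ} (hx : 0 ≤ ip u x)
    (hx' : ip u x ≤ w) :
    TT u w t x y ≤ Real.exp (-(w ^ 2) / (4 * t)) / (4 * Real.pi * t)
      + (AA u w t x y + BB u w t x y) := by
  have hA : 0 ≤ AA u w t x y := H41.G_nonneg ht _
  have hB : 0 ≤ BB u w t x y := H41.G_nonneg ht _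
  have hpi := Real.pi_pos
  have hE : 0 ≤ Real.exp (-(w ^ 2) / (4 * t)) / (4 * Real.pi * t) := by positivity
  have key : ∀ a : ℂ, w ^ 2 ≤ ‖a‖ ^ 2 → G t a ≤ Real.exp (-(w ^ 2) / (4 * t)) / (4 * Real.pi * t) := by
    intro a ha
    unfold G
    refine div_le_div_of_nonneg_right ?_ (by positivity)
    rw [Real.exp_le_exp]
    refine div_le_div_of_nonneg_right ?_ (by positivity)
    linarith
  rcases le_or_gt (ip u y) 0 with hy | hy
  · have := TT_out hu hw0 ht hx hx' (Or.inl hy)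
    linarith
  rcases le_or_gt w (ip u y) with hy' | hy'
  · have := TT_out hu hw0 ht hx hx' (Or.inr hy')
    linarith
  rcases le_or_gt w (ip u x + ip u y) with h | h
  · have h1 := (TT_le_K0 (w := w) ht x y).trans (K0_le (w := w) hu ht hx y)
    have h2 := ip_diff hu (rl u 0 x - y)
    rw [ip_sub, ip_rl hu] at h2
    have h3 := key (rl u 0 x - y) (by nlinarith)
    linarith
  · have h1 := (TT_le_K1 (w := w) ht x y).trans (K1_le (w := w) hu ht hx' y)
    have h2 := ip_diff hu (rl u w x - y)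
    rw [ip_sub, ip_rl hu] at h2
    have h3 := key (rl u w x - y) (by nlinarith)
    linarith

end Pool.Agent.XQ.H74
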